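import Pool.Agent.H71.CR.Stmt

/-! BTX: bases with copies exist. -/

set_option autoImplicit false

open Set Pool.Agent.TK Pool.Agent.H71.VK

namespace Pool.Agent.CR

/-- the tuples before the copy with number `j` -/
private def btxAcc (F : List ℕ → List ℕ) : ℕ → List ℕ
  | 0 => []
  | j + 1 => F (btxAcc F j) ++ btxAcc F j

private lemma btxAcc_mono (F : List ℕ → List ℕ) {i j : ℕ} (h : i ≤ j) :
    btxAcc F i ⊆ btxAcc F j := by
  induction j, h using Nat.le_induction with
  | base => exact List.Subset.refl _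
  | succ j _ ih => exact fun x hx => List.mem_append_right _ (ih hx)

private lemma btxAcc_sub (F : List ℕ → List ℕ) {i j : ℕ} (h : i < j) :
    F (btxAcc F i) ⊆ btxAcc F j := fun _ hx =>
  btxAcc_mono F (Nat.succ_le_of_lt h) (List.mem_append_left _ hx)

theorem pf_BTX (hREP : T_REP) (hFAR : T_FAR) : T_BTX := by
  classical
  intro n c Sm G π B hB
  obtain ⟨E, hE1, hE2⟩ := hREP n c G.lb B n.2 (fun x => G.Mb π B x)
  have hcop : ∀ e : List ℕ, ∃ f : Fin (n.2 + 1) → List ℕ, G.Mb π B e →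
      (∀ j, G.Mb π B (f j) ∧ e.length = (f j).length ∧ Pl c c (dg B ++ e.zip (f j))) ∧
        ∀ i j, i ≠ j → G.In B (f i) (f j) := by
    intro e
    by_cases he : G.Mb π B e
    · choose F hF1 hF2 hF3 hF4 _ using fun Y => hFAR n c Sm G π B hB.dlB e he Y
      refine ⟨fun j => F (btxAcc F j), fun _ => ⟨fun j => ⟨hF3 _, hF1 _, hF2 _⟩, ?_⟩⟩
      have key : ∀ i j : ℕ, i < j → G.In B (F (btxAcc F i)) (F (btxAcc F j)) := by
        intro i j hij k hk1 hk2
        refine hF4 (btxAcc F j) k (G.mono _ _ ?_ hk1) hk2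
        intro x hx
        rcases List.mem_append.1 hx with hx | hx
        · exact List.mem_append_left _ (btxAcc_sub F hij hx)
        · exact List.mem_append_right _ hx
      intro i j hij
      rcases lt_or_gt_of_ne (fun h => hij (Fin.ext h) : (i : ℕ) ≠ j) with h | h
      · exact key i j h
      · exact fun k h1 h2 => key j i h k h2 h1
    · exact ⟨fun _ => [], fun h => absurd h he⟩
  choose f hf using hcop
  refine ⟨B ++ (E.map fun e => (List.ofFn (f e)).flatten).flatten, hB,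
    fun x hx => List.mem_append_left _ hx, ?_⟩
  intro D hD hDm
  obtain ⟨e, heE, hel, hep⟩ := hE2 D hD hDm
  obtain ⟨h1, h2⟩ := hf e (hE1 e heE)
  refine ⟨f e, fun j => ⟨(h1 j).1, hel.symm.trans (h1 j).2.1,
    Pl.zip_trans hel.symm hep (h1 j).2.2, ?_⟩, h2⟩
  intro x hx
  refine List.mem_append_right _ (List.mem_flatten.2 ⟨_, List.mem_map.2 ⟨e, heE, rfl⟩, ?_⟩)
  exact List.mem_flatten.2 ⟨f e j, (List.mem_ofFn' _ _).2 ⟨j, rfl⟩, hx⟩

end Pool.Agent.CR
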