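import Pool.Agent.H71.CR.Stmt

/-! FBP: equivalent parameters define equivalent pieces. -/

set_option autoImplicit false

open Set Pool.Agent.TK Pool.Agent.H71.VK

namespace Pool.Agent.CR

private lemma fbp_zip (h : ℕ → ℕ) : ∀ (l : List ℕ) (z : ℕ × ℕ), z ∈ l.zip (l.map h) →
    z.1 ∈ l ∧ z = (z.1, h z.1)
  | [], z, hz => by simp at hz
  | a :: l, z, hz => by
    rw [List.map_cons, List.zip_cons_cons, List.mem_cons] at hz
    rcases hz with rfl | hz
    · exact ⟨List.mem_cons_self, rfl⟩
    · obtain ⟨h1, h2⟩ := fbp_zip h l z hz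
      exact ⟨List.mem_cons_of_mem _ h1, h2⟩

theorem pf_FBP {C : Type} (hMEM : T_MEM C) : T_FBP C := by
  intro M M' π h p r hb hp
  refine ⟨?_, ?_⟩
  · rw [zl_mp, List.length_map]
  · rw [zl_mp]
    have h1 : bf M M' (st (bn M) π) (st (bn M') (mp h π)) r p := by
      refine bf_restrict (D := univ) (D' := univ) (s := om2) (p0 := p) (subset_univ _)
        (subset_univ _) ?_ (fun z hz => hz) hb
      intro x _ x' _ hx
      exact (hMEM M M' π h ((x, x') :: p) hx (fun a ha => List.mem_cons_of_mem _ (hp a ha))).2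
        (x, x') List.mem_cons_self
    refine bf_mono h1 ?_
    intro z hz
    obtain ⟨h2, h3⟩ := fbp_zip h _ _ hz
    rw [h3]
    exact hp z.1 (zl_sub_dl π h2)

end Pool.Agent.CR
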